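import Pool.Agent.H94.RTB.Targets2

/-!
# Return times for linear averages: the square norm of the adjoint maximal operator (row R_L2)
-/

set_option autoImplicit false

namespace Pool.Agent.H43.RTB

open Pool.Agent.H94.RTB
open MeasureTheory Filter Topology Finset
open scoped ComplexConjugate NNReal

universe u v

/-- the terms of the double sum -/
noncomputable def gg (r s : ℕ) (p : ℕ × ℕ) : ℝ :=
  if r ≤ p.1 ∧ s ≤ p.2 ∧ p.2 ≤ p.1 then 1 / ((p.1 : ℝ) * p.2) else 0

theorem gg_nonneg (r s : ℕ) (p : ℕ × ℕ) : 0 ≤ gg r s p := by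
  unfold gg
  split_ifs
  · positivity
  · exact le_rfl

theorem gg_le_one (r s : ℕ) (p : ℕ × ℕ) : gg r s p ≤ 1 := by
  unfold gg
  split_ifs
  · rcases Nat.eq_zero_or_pos (p.1 * p.2) with h | h
    · have h1 : ((p.1 : ℝ) * p.2) = 0 := by exact_mod_cast h
      rw [h1, div_zero]
      exact zero_le_one
    · have h1 : (1 : ℝ) ≤ (p.1 : ℝ) * p.2 := by exact_mod_cast h
      rw [div_le_one (by linarith)]
      exact h1
  · exact zero_le_one

/-- the combinatorial lemma -/
theorem comb (a : ℕ) (ha : 1 ≤ a) (b : ℤ → ℕ) (hb : ∀ p, 1 ≤ b p) (L : ℕ) :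
    ∑ z ∈ Icc 1 L ×ˢ Icc 1 L, gg z.1 z.2 (a, b ((z.1 : ℤ) - z.2)) ≤ 2 := by
  classical
  set A : Finset (ℕ × ℕ) := (Icc 1 L ×ˢ Icc 1 L).filter
    (fun z => z.1 ≤ a ∧ z.2 ≤ b ((z.1 : ℤ) - z.2) ∧ b ((z.1 : ℤ) - z.2) ≤ a) with hA
  have h1 : ∑ z ∈ Icc 1 L ×ˢ Icc 1 L, gg z.1 z.2 (a, b ((z.1 : ℤ) - z.2)) =
      ∑ z ∈ A, 1 / ((a : ℝ) * b ((z.1 : ℤ) - z.2)) := by
    rw [hA, Finset.sum_filter]
    apply Finset.sum_congr rfl
    intro z _
    rfl
  rw [h1]
  have hmaps : ∀ z ∈ A, ((z.1 : ℤ) - z.2) ∈ Finset.Ioo (-(a : ℤ)) a := by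
    intro z hz
    rw [hA, Finset.mem_filter, Finset.mem_product, Finset.mem_Icc, Finset.mem_Icc] at hz
    rw [Finset.mem_Ioo]
    omega
  rw [← Finset.sum_fiberwise_of_maps_to hmaps]
  have ha0 : (0 : ℝ) < a := by exact_mod_cast ha
  have hfib : ∀ p ∈ Finset.Ioo (-(a : ℤ)) a,
      ∑ z ∈ A with ((z.1 : ℤ) - z.2) = p, 1 / ((a : ℝ) * b ((z.1 : ℤ) - z.2)) ≤ 1 / (a : ℝ) := by
    intro p _
    have hbp : (0 : ℝ) < b p := by exact_mod_cast hb p
    have h2 : ∑ z ∈ A with ((z.1 : ℤ) - z.2) = p, 1 / ((a : ℝ) * b ((z.1 : ℤ) - z.2)) =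
        ∑ z ∈ A with ((z.1 : ℤ) - z.2) = p, 1 / ((a : ℝ) * b p) := by
      apply Finset.sum_congr rfl
      intro z hz
      rw [(Finset.mem_filter.1 hz).2]
    rw [h2, Finset.sum_const, nsmul_eq_mul]
    have h3 : (A.filter fun z => ((z.1 : ℤ) - z.2) = p).card ≤ b p := by
      have h4 : (A.filter fun z => ((z.1 : ℤ) - z.2) = p).card ≤ (Finset.Icc 1 (b p)).card := by
        apply Finset.card_le_card_of_injOn (fun z => z.2)
        · intro z hz
          have hz' := Finset.mem_filter.1 (Finset.mem_coe.1 hz)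
          obtain ⟨hz1, hz2⟩ := hz'
          rw [hA, Finset.mem_filter, Finset.mem_product, Finset.mem_Icc, Finset.mem_Icc, hz2]
            at hz1
          rw [Finset.mem_coe, Finset.mem_Icc]
          exact ⟨hz1.1.2.1, hz1.2.2.1⟩
        · intro z hz z' hz' hzz
          have h5 := (Finset.mem_filter.1 (Finset.mem_coe.1 hz)).2
          have h6 := (Finset.mem_filter.1 (Finset.mem_coe.1 hz')).2
          have h7 : z.2 = z'.2 := hzz
          have h8 : z.1 = z'.1 := by omega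
          exact Prod.ext h8 h7
      rwa [Nat.card_Icc, Nat.add_sub_cancel] at h4
    have h5 : (((A.filter fun z => ((z.1 : ℤ) - z.2) = p).card : ℕ) : ℝ) ≤ b p := by
      exact_mod_cast h3
    calc (((A.filter fun z => ((z.1 : ℤ) - z.2) = p).card : ℕ) : ℝ) * (1 / ((a : ℝ) * b p))
        ≤ (b p : ℝ) * (1 / ((a : ℝ) * b p)) := by gcongr
      _ = 1 / (a : ℝ) := by field_simp
  refine (Finset.sum_le_sum hfib).trans ?_
  rw [Finset.sum_const, Int.card_Ioo, nsmul_eq_mul]
  have h6 : (((a : ℤ) - -(a : ℤ) - 1).toNat : ℝ) ≤ 2 * a := by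
    have h7 : ((a : ℤ) - -(a : ℤ) - 1).toNat ≤ 2 * a := by omega
    exact_mod_cast h7
  calc (((a : ℤ) - -(a : ℤ) - 1).toNat : ℝ) * (1 / (a : ℝ)) ≤ 2 * a * (1 / (a : ℝ)) := by gcongr
    _ = 2 := by field_simp

theorem symm_iter {X : Type u} [MeasurableSpace X] (T : X ≃ᵐ X) (r s : ℕ) (y : X) :
    T.symm^[s] (T^[r] y) = ((T.toEquiv : Equiv.Perm X) ^ ((r : ℤ) - s)) y := by
  set e : Equiv.Perm X := T.toEquiv with he
  have h1 : ∀ (n : ℕ) (y : X), T^[n] y = (e ^ n) y := by
    intro n y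
    have h := congrFun (Equiv.Perm.iterate_eq_pow e n) y
    exact h
  have h2 : ∀ (n : ℕ) (y : X), T.symm^[n] y = (e⁻¹ ^ n) y := by
    intro n y
    have h := congrFun (Equiv.Perm.iterate_eq_pow e⁻¹ n) y
    exact h
  rw [h1, h2, ← Equiv.Perm.mul_apply]
  congr 1
  rw [zpow_sub, zpow_natCast, zpow_natCast, inv_pow]
  exact ((Commute.refl e).pow_pow s r).inv_left.eq

theorem iter_iter {X : Type u} [MeasurableSpace X] (T : X ≃ᵐ X) (r : ℕ) (y : X) :
    T.symm^[r] (T^[r] y) = y := by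
  rw [symm_iter]
  simp

theorem pf_L2 : T_L2.{u} := by
  classical
  intro X _ μ _ T hT w C L N a hw hN hNL ha ha1
  have hC0 : 0 ≤ C := (norm_nonneg _).trans (hw 0)
  -- the majorant
  set d : ℕ → X → ℝ := fun r x => if r ≤ N (T.symm^[r] x) then 1 / (N (T.symm^[r] x) : ℝ) else 0
    with hd
  set D : X → ℝ := fun x => ∑ r ∈ Icc 1 L, d r x with hD
  have hd0 : ∀ r x, 0 ≤ d r x := by
    intro r x
    simp only [hd]
    split_ifs
    · positivity
    · exact le_rfl
  have hD0 : ∀ x, 0 ≤ D x := fun x => Finset.sum_nonneg fun r _ => hd0 r x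
  have hCC : ∀ x, ‖CC T w L N a x‖ ≤ C * D x := by
    intro x
    rw [hD]
    simp only
    rw [Finset.mul_sum]
    unfold CC
    refine (norm_sum_le _ _).trans (Finset.sum_le_sum fun r _ => ?_)
    simp only [hd]
    split_ifs with h
    · rw [norm_div, norm_mul, Complex.norm_natCast, mul_one_div]
      gcongr
      calc ‖a (T.symm^[r] x)‖ * ‖w r‖ ≤ 1 * C := by
            gcongr
            · exact ha1 _
            · exact hw r
        _ = C := one_mul C
    · rw [norm_zero, mul_zero]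
  -- the terms
  set g : ℕ → ℕ → X → ℝ := fun r s x => gg r s (N (T.symm^[r] x), N (T.symm^[s] x)) with hg
  have hgm : ∀ r s, Measurable (g r s) := by
    intro r s
    have h1 : Measurable (fun x => (N (T.symm^[r] x), N (T.symm^[s] x))) :=
      (hN.comp (T.symm.measurable.iterate r)).prodMk (hN.comp (T.symm.measurable.iterate s))
    exact (Measurable.of_discrete (f := gg r s)).comp h1
  have hgi : ∀ r s, Integrable (g r s) μ := by
    intro r s
    refine Integrable.of_bound (hgm r s).aestronglyMeasurable 1 (Eventually.of_forall fun x => ?_)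
    rw [Real.norm_of_nonneg (gg_nonneg _ _ _)]
    exact gg_le_one _ _ _
  have hdd : ∀ r s x, d r x * d s x ≤ g r s x + g s r x := by
    intro r s x
    by_cases h1 : r ≤ N (T.symm^[r] x)
    · by_cases h2 : s ≤ N (T.symm^[s] x)
      · have e1 : d r x * d s x =
            1 / ((N (T.symm^[r] x) : ℝ) * N (T.symm^[s] x)) := by
          simp only [hd]
          rw [if_pos h1, if_pos h2]
          rw [one_div_mul_one_div]
        rcases le_total (N (T.symm^[s] x)) (N (T.symm^[r] x)) with h3 | h3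
        · have e2 : g r s x = 1 / ((N (T.symm^[r] x) : ℝ) * N (T.symm^[s] x)) := by
            simp only [hg, gg]
            rw [if_pos ⟨h1, h2, h3⟩]
          rw [e1, e2]
          exact le_add_of_nonneg_right (gg_nonneg _ _ _)
        · have e2 : g s r x = 1 / ((N (T.symm^[r] x) : ℝ) * N (T.symm^[s] x)) := by
            simp only [hg, gg]
            rw [if_pos ⟨h2, h1, h3⟩, mul_comm]
          rw [e1, e2]
          exact le_add_of_nonneg_left (gg_nonneg _ _ _)
      · have e1 : d s x = 0 := by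
          simp only [hd]
          rw [if_neg h2]
        rw [e1, mul_zero]
        exact add_nonneg (gg_nonneg _ _ _) (gg_nonneg _ _ _)
    · have e1 : d r x = 0 := by
        simp only [hd]
        rw [if_neg h1]
      rw [e1, zero_mul]
      exact add_nonneg (gg_nonneg _ _ _) (gg_nonneg _ _ _)
  set G : X → ℝ := fun x => ∑ z ∈ Icc 1 L ×ˢ Icc 1 L, g z.1 z.2 x with hG
  have hDG : ∀ x, D x ^ 2 ≤ 2 * G x := by
    intro x
    have e1 : D x ^ 2 = ∑ z ∈ Icc 1 L ×ˢ Icc 1 L, d z.1 x * d z.2 x := by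
      rw [sq, hD]
      simp only
      rw [Finset.sum_mul_sum, Finset.sum_product]
    have e2 : ∑ z ∈ Icc 1 L ×ˢ Icc 1 L, g z.2 z.1 x = G x := by
      rw [hG]
      simp only
      rw [Finset.sum_product, Finset.sum_product, Finset.sum_comm]
    calc D x ^ 2 = ∑ z ∈ Icc 1 L ×ˢ Icc 1 L, d z.1 x * d z.2 x := e1
      _ ≤ ∑ z ∈ Icc 1 L ×ˢ Icc 1 L, (g z.1 z.2 x + g z.2 z.1 x) :=
          Finset.sum_le_sum fun z _ => hdd z.1 z.2 x
      _ = 2 * G x := by
          rw [Finset.sum_add_distrib, e2]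
          ring
  have hGi : Integrable G μ := integrable_finsetSum _ fun z _ => hgi z.1 z.2
  -- the integral
  have hGint : ∫ x, G x ∂μ ≤ 2 := by
    have e1 : ∫ x, G x ∂μ = ∑ z ∈ Icc 1 L ×ˢ Icc 1 L, ∫ x, g z.1 z.2 x ∂μ :=
      integral_finsetSum _ fun z _ => hgi z.1 z.2
    have e2 : ∀ r s, ∫ x, g r s x ∂μ = ∫ y, g r s (T^[r] y) ∂μ := by
      intro r s
      have h1 := (hT.iterate r)
      conv_lhs => rw [← h1.map_eq]
      exact integral_map h1.measurable.aemeasurable (hgm r s).aestronglyMeasurable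
    have hgi' : ∀ r s, Integrable (fun y => g r s (T^[r] y)) μ := by
      intro r s
      refine Integrable.of_bound
        ((hgm r s).comp (hT.iterate r).measurable).aestronglyMeasurable 1
        (Eventually.of_forall fun x => ?_)
      rw [Real.norm_of_nonneg (gg_nonneg _ _ _)]
      exact gg_le_one _ _ _
    have e3 : ∫ x, G x ∂μ = ∫ y, ∑ z ∈ Icc 1 L ×ˢ Icc 1 L, g z.1 z.2 (T^[z.1] y) ∂μ := by
      rw [e1, integral_finsetSum _ fun z _ => hgi' z.1 z.2]
      exact Finset.sum_congr rfl fun z _ => e2 z.1 z.2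
    rw [e3]
    have e4 : ∀ y, ∑ z ∈ Icc 1 L ×ˢ Icc 1 L, g z.1 z.2 (T^[z.1] y) ≤ 2 := by
      intro y
      have h1 := comb (N y) (hNL y).1
        (fun p => N (((T.toEquiv : Equiv.Perm X) ^ p) y)) (fun p => (hNL _).1) L
      refine le_trans (le_of_eq ?_) h1
      apply Finset.sum_congr rfl
      intro z _
      simp only [hg]
      rw [iter_iter, symm_iter]
    calc ∫ y, ∑ z ∈ Icc 1 L ×ˢ Icc 1 L, g z.1 z.2 (T^[z.1] y) ∂μ ≤ ∫ _y, (2 : ℝ) ∂μ :=
          integral_mono (integrable_finsetSum _ fun z _ => hgi' z.1 z.2)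
            (integrable_const _) e4
      _ = 2 := by simp
  calc ∫ x, ‖CC T w L N a x‖ ^ 2 ∂μ ≤ ∫ x, C ^ 2 * (2 * G x) ∂μ := by
        apply integral_mono_of_nonneg (Eventually.of_forall fun x => by positivity)
          ((hGi.const_mul 2).const_mul (C ^ 2))
        refine Eventually.of_forall fun x => ?_
        calc ‖CC T w L N a x‖ ^ 2 ≤ (C * D x) ^ 2 :=
              pow_le_pow_left₀ (norm_nonneg _) (hCC x) 2
          _ = C ^ 2 * D x ^ 2 := by ring
          _ ≤ C ^ 2 * (2 * G x) := by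
              gcongr
              exact hDG x
    _ = C ^ 2 * (2 * ∫ x, G x ∂μ) := by
        rw [integral_const_mul, integral_const_mul]
    _ ≤ C ^ 2 * (2 * 2) := by gcongr
    _ = 4 * C ^ 2 := by ring

end Pool.Agent.H43.RTB
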